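import Pool.Agent.helper76.LP.Defs3

/-! # Project EF (fourfolds of all degrees): definitions -/

namespace Pool.Agent.helper88.EF

open Finset Pool.Agent.helper76.LP

/-- distribution relations in all directions except `q` -/
def Dist (q : ℕ) {m : ℕ} (s : ZMod m → ℚ) : Prop :=
  ∀ p : ℕ, p.Prime → p ∣ m → p ≠ q → ∀ x : ZMod m,
    ∑ j ∈ range p, s (x + ((j * (m / p) : ℕ) : ZMod m)) = s ((p : ZMod m) * x)

open Pool.Agent.helper34.DH in
/-- `c'` is obtained from `c` by modifications in directions different from `q` -/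
def QEq (q : ℕ) {m : ℕ} [NeZero m] (c c' : ZMod m → ℤ) : Prop :=
  (∃ j : ℤ, cls m c' = cls m c + j • hh) ∧ (TateF (anti c) → TateF (anti c')) ∧
  (∀ x, ¬ q ∣ addOrderOf x → anti c' x = anti c x) ∧
  ∀ s : ZMod m → ℚ, Dist q s → ∑ x, (anti c' x : ℚ) * s x = ∑ x, (anti c x : ℚ) * s x

open Classical in
/-- sum over a coset -/
noncomputable def gsum {G : Type*} [Group G] [Fintype G] (H : Subgroup G) (ψ : G → ℤ) (z : G) :
    ℤ := ∑ w : G, if w ∈ H then ψ (w * z) else 0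

/-- test functions: the sums over the cosets of `Gam D p`, `p ≠ q`, vanish -/
def Tst (D q : ℕ) [NeZero D] (ψ : (ZMod D)ˣ → ℤ) : Prop :=
  ∀ p ∈ D.primeFactors, p ≠ q → ∀ z, gsum (Gam D p) ψ z = 0

/-- bound for the extension of a test function (`ev`: the level is even) -/
def Bd (D : ℕ) (ev : Prop) (ψ : (ZMod D)ˣ → ℤ) (B : ℤ) : Prop :=
  (∀ z, |ψ z| ≤ B) ∧
    (ev → Odd D → ∀ z z' : (ZMod D)ˣ, (z' : ZMod D) = 2 * (z : ZMod D) → |ψ z' - ψ z| ≤ B)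

/-- the basic estimate -/
def Est (D q : ℕ) [NeZero D] (ev : Prop) (f : (ZMod D)ˣ → ℤ) : Prop :=
  ∀ (ψ : (ZMod D)ˣ → ℤ) (B : ℤ), Tst D q ψ → Bd D ev ψ B → |∑ z, f z * ψ z| ≤ 12 * B

/-- extension of a test function -/
structure Ext (m D q : ℕ) [NeZero D] (ψ : (ZMod D)ˣ → ℤ) (s : ZMod m → ℚ) : Prop where
  dist : Dist q s
  val : ∀ z : (ZMod D)ˣ, s (emb D m (z : ZMod D)) = ψ z
  supp : ∀ x, s x ≠ 0 → D ∣ addOrderOf x ∧ ¬ D * q ∣ addOrderOf x
  mul : ∀ p : ℕ, p.Prime → p ≠ q → ∀ x : ZMod m, D * p ∣ addOrderOf x →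
    (p ∣ D ∨ p * p ∣ addOrderOf x) → s x = s ((p : ZMod m) * x) / p
  new : ∀ l : ℕ, l.Prime → ¬ l ∣ D → ∀ x x' : ZMod m, l ∣ addOrderOf x →
    ¬ l * l ∣ addOrderOf x → (l : ZMod m) * x' = (l : ZMod m) * x → ¬ l ∣ addOrderOf x' →
    s x = (s ((l : ZMod m) * x) - s x') / (l - 1)

/-- iterated differences -/
def dl {G : Type*} [CommGroup G] (v : ℕ → G) : List ℕ → (G → ℤ) → G → ℤ
  | [], f => f
  | p :: L, f => dl v L (fun x => f (v p * x) - f x)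

/-- signs -/
def sg (b : Bool) : ℤ := if b then -1 else 1

/-- signs as units -/
def su {D : ℕ} (b : Bool) : (ZMod D)ˣ := if b then -1 else 1

/-- description of the values of the test function of a cube -/
def Cub (D q : ℕ) (L : List ℕ) (v : ℕ → (ZMod D)ˣ) (z : (ZMod D)ˣ) (ψ : (ZMod D)ˣ → ℤ) : Prop :=
  ∀ x, ψ x = 0 ∨ ∃ (b : Bool) (S : Finset ℕ) (ξ : (ZMod D)ˣ), S ⊆ L.toFinset ∧ ξ ∈ Gam D q ∧
    x = su b * (ξ * (∏ p ∈ S, v p) * z) ∧ ψ x = sg b * (-1) ^ (S.card + L.length)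

/-- the hypotheses at one stage -/
structure RHyp (D q : ℕ) [NeZero D] (L : List ℕ) (ev : Prop) (f : (ZMod D)ˣ → ℤ) : Prop where
  hq : q.Prime
  nd : (q :: L).Nodup
  hL : (q :: L).toFinset = D.primeFactors
  h4 : D % 4 ≠ 2
  odd : ∀ x, f (-x) = - f x
  mdv : MDv (Gam D) (q :: L) f
  est : Est D q ev f

/-- sums over the fibres of `(ZMod D)ˣ → (ZMod N)ˣ` -/
def Vs {D N : ℕ} [NeZero D] (h : N ∣ D) (f : (ZMod D)ˣ → ℤ) (y : (ZMod N)ˣ) : ℤ :=
  ∑ z : (ZMod D)ˣ, if ZMod.unitsMap h z = y then f z else 0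

/-- the bound for the points of order not dividing 60 -/
def Inv {m : ℕ} [NeZero m] (F : ZMod m → ℤ) : Prop :=
  (∑ x, if addOrderOf x ∣ 60 then 0 else |F x|) ≤ 12 ∧
    ((∑ x, if addOrderOf x ∣ 60 then 0 else |F x|) = 12 → ∀ x, addOrderOf x ∣ 60 → F x = 0)

open Pool.Agent.helper34.DH in
/-- two primes: the exceptional class removes the obstruction -/
def FixE (E : AddSubgroup Qt) (D : ℕ) [NeZero D] : Prop :=
  ∃ e : ZMod D → ℤ, TateF (anti e) ∧ cls D e ∈ E ∧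
    ∀ f g : (ZMod D)ˣ → ℤ, (∀ x, f (-x) = - f x) →
      (∀ L : List ℕ, L.Nodup → L.toFinset = D.primeFactors → MDv (Gam D) L f) →
      (g = fun z => f z - anti e (z : ZMod D)) →
      (∀ x, g (-x) = - g x) →
      (∀ L : List ℕ, L.Nodup → L.toFinset = D.primeFactors → MDv (Gam D) L g) →
      NDec D f ∨ NDec D g

end Pool.Agent.helper88.EF
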