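import Pool.Agent.helper76.UR.Fin

/-! # Project EF: the exceptional class of level 110 -/

namespace Pool.Agent.helper88.EF

open Finset Pool.Agent.helper34.DH Pool.Agent.helper76.FV Pool.Agent.helper76.LP
  Pool.Agent.helper76.UR

/-- the exceptional Tate character of the Fermat fourfold of degree 110 -/
def z110 : Fin (2 * 2 + 2) → ZMod 110 := ![1, 24, 62, 71, 81, 91]

/-- Lefschetz classes and the exceptional class -/
def P110 (u : Multiset QZ) : Prop := IsLef u ∨ u = pts z110

theorem X55_tate : TateM 110 z110 := EX_tateM 110 _ z110 (by decide +kernel) (by decide +kernel)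

theorem tateGen110 : TateGen P110 := by
  rintro u (h | h)
  · exact tateGen_lef u h
  · exact ⟨110, 2, z110, by norm_num, (isTateFermat_iff 110 (by norm_num) 2 z110).2 X55_tate, h⟩

theorem X55_mono {q : Qt} (h : q ∈ EP IsLef) : q ∈ EP P110 := by
  refine (AddSubgroup.closure_le (K := EP P110)).2 ?_ h
  rintro q (⟨u, hu, rfl⟩ | rfl)
  · exact AddSubgroup.subset_closure (Or.inl ⟨u, Or.inl hu, rfl⟩)
  · exact AddSubgroup.subset_closure (Or.inr rfl)

theorem X55_fix {D : ℕ} [NeZero D] (h : FixP IsLef D) : FixP P110 D := by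
  obtain ⟨e, h1, h2, h3⟩ := h
  exact ⟨e, h1, X55_mono h2, h3⟩

theorem X55_cls : cls 110 (cnt z110) ∈ EP P110 := by
  have h1 : cls 110 (cnt z110) = ∑ i, F (frac 110 z110 i) := sum_cnt_smul z110 (cl 110)
  have h2 := mk_ptsQ (frac 110 z110) (pts_ne_zero (by norm_num) z110 X55_tate.1)
  rw [h1, ← h2]
  exact AddSubgroup.subset_closure (Or.inl ⟨pts z110, Or.inr rfl, rfl⟩)

def c55 : Fin 6 → ZMod 55 := ![1, 12, 31, 71, 81, 91]
def d55 : Fin 4 → ZMod 55 := ![28, 63, 68, 73]

theorem exo55 : ExoP P110 55 34 := by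
  refine ⟨dif c55 d55, XO_tateF 55 _ (by decide +kernel), by decide +kernel, ?_⟩
  have h0 := X55_cls
  have h1 : cls 110 (cnt z110) = _ := sum_cnt_smul z110 (cl 110)
  have h2 : ∑ i, cl 110 (z110 i) = cl 110 1 + cl 110 24 + cl 110 62 + cl 110 71 + cl 110 81 +
      cl 110 91 := by
    simp only [Fin.sum_univ_succ, z110]
    simp
    abel
  have h3 : cls 55 (dif c55 d55) = cl 55 1 + cl 55 12 + cl 55 31 + cl 55 71 + cl 55 81 +
      cl 55 91 - (cl 55 28 + cl 55 63 + cl 55 68 + cl 55 73) := by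
    rw [cls_dif]
    simp only [Fin.sum_univ_succ, c55, d55]
    simp
    abel
  have k1 : cl 110 1 = cl 55 1 - cl 55 28 + hh := by
    simpa using cl_two_odd 55 1 28 (by norm_num) (by norm_num)
  have k71 : cl 110 71 = cl 55 71 - cl 55 63 + hh := by
    simpa using cl_two_odd 55 71 63 (by norm_num) (by norm_num)
  have k81 : cl 110 81 = cl 55 81 - cl 55 68 + hh := by
    simpa using cl_two_odd 55 81 68 (by norm_num) (by norm_num)
  have k91 : cl 110 91 = cl 55 91 - cl 55 73 + hh := by
    simpa using cl_two_odd 55 91 73 (by norm_num) (by norm_num)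
  have k24 : cl 110 24 = cl 55 12 := by simpa using cl_two_even 55 12 (by norm_num)
  have k62 : cl 110 62 = cl 55 31 := by simpa using cl_two_even 55 31 (by norm_num)
  rw [h1, h2, k1, k24, k62, k71, k81, k91] at h0
  have h5 : cls 55 (dif c55 d55) = (cl 55 1 - cl 55 28 + hh + cl 55 12 + cl 55 31 +
      (cl 55 71 - cl 55 63 + hh) + (cl 55 81 - cl 55 68 + hh) + (cl 55 91 - cl 55 73 + hh))
      - (4 : ℤ) • hh := by
    rw [h3]; abel
  rw [h5]
  exact (EP P110).sub_mem h0 ((EP P110).zsmul_mem hh_mem' 4)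

theorem f55 : FixP P110 55 := by
  refine fixP_of_exo 55 5 11 (by norm_num) (by decide +kernel) ?_
    ⟨34, 34, by decide, by decide⟩ ?_ ?_ (by decide) exo55
  · rw [card_Gam 55 5 (by norm_num) (by norm_num), card_Gam 55 11 (by norm_num) (by norm_num)]
    decide +kernel
  · unfold Gam
    rw [dif_pos (by norm_num : 5 ∣ 55), MonoidHom.mem_ker]
    decide +kernel
  · unfold Gam
    rw [dif_pos (by norm_num : 11 ∣ 55), MonoidHom.mem_ker]
    decide +kernel

end Pool.Agent.helper88.EF
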