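import Pool.Agent.helper88.EF.Ma
import Pool.Agent.helper88.EF.X55

/-! # Project EF: the theorems for Tate characters with at most six coordinates -/

namespace Pool.Agent.helper88.EF

open Finset Pool.Agent.helper34.DH Pool.Agent.helper76.FV Pool.Agent.helper76.LP
  Pool.Agent.helper76.UR

/-- the general theorem -/
theorem fourfold_gen {P : Multiset QZ → Prop} (hP : TateGen P)
    (hF : ∀ D : ℕ, ∀ _ : NeZero D, D ∈ GP → FixP P D)
    (m : ℕ) (hm : 0 < m) (h110 : 110 ∣ m → ∀ _ : NeZero 55, FixP P 55) (d : ℕ) (hd : d ≤ 3)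
    {s : ℕ} (π : Fin (2 * d) → Fin s) (a : Fin (2 * d) → ZMod m) :
    IsTateChar m π a ↔ (∀ i, a i ≠ 0) ∧ BlockZero π a ∧ EquivMod P (pts a) 0 := by
  have : NeZero m := ⟨hm.ne'⟩
  rw [isTateChar_iff m hm]
  constructor
  · rintro ⟨hb, hT⟩
    refine ⟨hT.1, hb, equivMod_of_cls hP m d a hT.1 ?_⟩
    refine main (EP P) hh_mem' (fun D hD0 hD => hF D hD0 (Finset.mem_of_subset (by decide) hD)) m ?_ _
      (tateF_anti m a hT) ?_
    · intro h55 h2
      refine h110 ?_
      exact Nat.Coprime.mul_dvd_of_dvd_of_dvd (by norm_num) h55 (even_iff_two_dvd.1 h2)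
    · have h1 : ∑ x, |anti (cnt a) x| ≤ ((2 * (2 * d) : ℕ) : ℤ) := by
        have h2 : ∀ x, |anti (cnt a) x| ≤ cnt a x + cnt a (-x) := by
          intro x
          unfold anti
          have h3 : ∀ y, 0 ≤ cnt a y := fun y => by
            unfold cnt
            exact Finset.sum_nonneg fun i _ => by split_ifs <;> norm_num
          have := h3 x
          have := h3 (-x)
          rw [abs_le]
          constructor <;> linarith
        refine (Finset.sum_le_sum fun x _ => h2 x).trans ?_
        have h5 : ∑ x : ZMod m, cnt a (-x) = ∑ x, cnt a x :=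
          Equiv.sum_comp (Equiv.neg (ZMod m)) (cnt a)
        rw [Finset.sum_add_distrib, h5]
        have h4 : ∑ x, cnt a x = (2 * d : ℕ) := by
          have := sum_cnt_smul a (fun _ => (1 : ℤ))
          simpa using this
        rw [h4]
        push_cast
        linarith
      refine h1.trans ?_
      have : (d : ℤ) ≤ 3 := by exact_mod_cast hd
      push_cast
      linarith
  · rintro ⟨h0, hb, hs⟩
    exact ⟨hb, tateM_of_equivMod hP m hm _ a h0 hs⟩

/-- Fermat fourfolds (and products with at most six coordinates) of degree not divisible by 110 -/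
theorem fourfold (m : ℕ) (hm : 0 < m) (h110 : ¬ 110 ∣ m) (d : ℕ) (hd : d ≤ 3)
    {s : ℕ} (π : Fin (2 * d) → Fin s) (a : Fin (2 * d) → ZMod m) :
    IsTateChar m π a ↔ (∀ i, a i ≠ 0) ∧ BlockZero π a ∧ LefEquiv (pts a) 0 :=
  fourfold_gen tateGen_lef (fun D _ hD => fixP_of_mem D hD) m hm (fun h => absurd h h110) d hd π a

/-- all degrees: one further class -/
theorem fourfold_all (m : ℕ) (hm : 0 < m) (d : ℕ) (hd : d ≤ 3)
    {s : ℕ} (π : Fin (2 * d) → Fin s) (a : Fin (2 * d) → ZMod m) :
    IsTateChar m π a ↔ (∀ i, a i ≠ 0) ∧ BlockZero π a ∧ EquivMod P110 (pts a) 0 :=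
  fourfold_gen tateGen110 (fun D _ hD => X55_fix (fixP_of_mem D hD)) m hm (fun _ _ => f55) d hd π a

end Pool.Agent.helper88.EF
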