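import Pool.Agent.helper88.EF.Ph
import Pool.Agent.helper97.OF.MV
import Pool.Agent.helper76.LP.Main2

/-! # Project EF: the main theorem for functions -/

namespace Pool.Agent.helper88.EF

open Finset Pool.Agent.helper76.LP

open Pool.Agent.helper34.DH in
/-- removing the orders with prime factors `≥ 11` -/
theorem big_primes (E : AddSubgroup Qt) (hE : hh ∈ E)
    (hF : ∀ D : ℕ, ∀ _ : NeZero D, D ∈ ({33, 39, 44, 51, 52, 57} : Finset ℕ) → FixE E D)
    (m : ℕ) [NeZero m] (h110 : 55 ∣ m → Even m → ∀ _ : NeZero 55, FixE E 55) :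
    ∀ (K : ℕ) (c0 : ZMod m → ℤ), TateF (anti c0) → Inv (anti c0) →
      (∀ x, anti c0 x ≠ 0 → ∀ p : ℕ, p.Prime → p ∣ addOrderOf x → p ≤ K) →
      ∃ c' : ZMod m → ℤ, TateF (anti c') ∧ Inv (anti c') ∧
        (∀ x, anti c' x ≠ 0 → ∀ p : ℕ, p.Prime → p ∣ addOrderOf x → p ≤ 7) ∧
        cls m c0 - cls m c' ∈ E := by
  intro K
  induction K with
  | zero =>
    intro c0 hT hI hp
    refine ⟨c0, hT, hI, fun x hx p hpp hpx => (hp x hx p hpp hpx).trans (by norm_num), ?_⟩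
    rw [sub_self]; exact E.zero_mem
  | succ K ih =>
    intro c0 hT hI hp
    by_cases hK : (K + 1).Prime
    swap
    · refine ih c0 hT hI fun x hx p hpp hpx => ?_
      have h1 := hp x hx p hpp hpx
      have h2 : p ≠ K + 1 := fun h => hK (h ▸ hpp)
      omega
    · by_cases h11 : 11 ≤ K + 1
      · obtain ⟨c1, h1, h2, h3, h4⟩ := phase E hE hF m h110 (K + 1) hK h11 c0 hT hI hp
        obtain ⟨c2, h5, h6, h7, h8⟩ := ih c1 h1 h2
          (fun x hx p hpp hpx => Nat.lt_succ_iff.1 (h3 x hx p hpp hpx))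
        refine ⟨c2, h5, h6, h7, ?_⟩
        have h9 := E.add_mem h4 h8
        rwa [sub_add_sub_cancel] at h9
      · refine ⟨c0, hT, hI, fun x hx p hpp hpx => ?_, by rw [sub_self]; exact E.zero_mem⟩
        have h1 := (hp x hx p hpp hpx)
        have h2 : p ≤ 10 := by omega
        by_contra h7
        push Not at h7
        interval_cases p
        all_goals exact absurd hpp (by norm_num)

/-! ### orders divisible by 420 -/

/-- the state of the loop -/
def S4 (K : ℕ) {m : ℕ} [NeZero m] (c0 c : ZMod m → ℤ) : Prop :=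
  QEq 7 c0 c ∧ (∀ x, anti c x ≠ 0 → ∀ p : ℕ, p.Prime → p ∣ addOrderOf x → p ≤ 7) ∧
    ∀ x, anti c x ≠ 0 → 420 ∣ addOrderOf x → addOrderOf x ≤ K

lemma MA_factors (D : ℕ) (hD0 : D ≠ 0) (h420 : 420 ∣ D) (hpr : ∀ p ∈ D.primeFactors, p ≤ 7) :
    (7 :: [2, 3, 5]).toFinset = D.primeFactors := by
  ext p
  constructor
  · intro hp
    have : Nat.primeFactors 420 = {2, 3, 5, 7} := by decide +kernel
    refine Nat.primeFactors_mono h420 hD0 ?_
    rw [this]
    revert hp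
    simp
    tauto
  · intro hp
    have h1 := hpr p hp
    have h2 := Nat.prime_of_mem_primeFactors hp
    interval_cases p
    all_goals first | (simp; done) | exact absurd h2 (by norm_num)

lemma MA_step (m D : ℕ) [NeZero m] (c0 c : ZMod m → ℤ)
    (hS : S4 (D + 1) c0 c)
    (hmdv : ∀ _ : NeZero (D + 1), 420 ∣ D + 1 → D + 1 ∣ m → (∀ p ∈ (D + 1).primeFactors, p ≤ 7) →
      MDv (Gam (D + 1)) [2, 3, 5] (fun z => anti c (emb (D + 1) m (z : ZMod (D + 1))))) :
    ∃ c', S4 D c0 c' := by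
  obtain ⟨hQ, hp, hK⟩ := hS
  by_cases hqD : 420 ∣ D + 1
  swap
  · refine ⟨c, hQ, hp, fun x hx hqx => ?_⟩
    have h1 := hK x hx hqx
    have h2 : addOrderOf x ≠ D + 1 := fun h => hqD (h ▸ hqx)
    omega
  by_cases hDm : D + 1 ∣ m
  swap
  · refine ⟨c, hQ, hp, fun x hx hqx => ?_⟩
    have h1 := hK x hx hqx
    have h2 : addOrderOf x ≠ D + 1 := fun h => hDm (h ▸ addOrderOf_dvd' x)
    omega
  have hN : NeZero (D + 1) := ⟨Nat.succ_ne_zero D⟩
  have hodd : ∀ x : (ZMod (D + 1))ˣ, anti c (emb (D + 1) m ((-x : (ZMod (D + 1))ˣ) : ZMod (D + 1)))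
      = - anti c (emb (D + 1) m (x : ZMod (D + 1))) := by
    intro x
    rw [Units.val_neg, emb_neg hDm, anti_odd]
  by_cases hex : ∃ z : (ZMod (D + 1))ˣ, anti c (emb (D + 1) m (z : ZMod (D + 1))) ≠ 0
  swap
  · push Not at hex
    refine ⟨c, hQ, hp, fun x hx hqx => ?_⟩
    have h1 := hK x hx hqx
    have h2 : addOrderOf x ≠ D + 1 := by
      intro h
      obtain ⟨z, rfl⟩ := exists_emb x h
      exact hx (hex z)
    omega
  obtain ⟨z, hz⟩ := hex
  have hpD : ∀ p ∈ (D + 1).primeFactors, p ≤ 7 := by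
    intro p hpD
    refine hp _ hz p (Nat.prime_of_mem_primeFactors hpD) ?_
    rw [addOrderOf_emb hDm]
    exact Nat.dvd_of_mem_primeFactors hpD
  have hL := MA_factors (D + 1) (Nat.succ_ne_zero D) hqD hpD
  have hnd : (7 :: [2, 3, 5]).Nodup := by decide
  have h7D : 7 ∣ D + 1 := (by norm_num : 7 ∣ 420).trans hqD
  have hM := hmdv hN hqD hDm hpD
  obtain ⟨N, h1, h2, h4⟩ := qdec (D + 1) 7 (by norm_num) (by norm_num) _ hnd hL _ hodd hM
  obtain ⟨c', hQ', h5, h6⟩ := qstep m (D + 1) 7 hDm h7D _ hnd hL c N h1 h2 h4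
  have hmem : ∀ r ∈ [2, 3, 5], r ∈ (D + 1).primeFactors := by
    intro r hr
    rw [← hL, List.toFinset_cons, Finset.mem_insert, List.mem_toFinset]
    exact Or.inr hr
  refine ⟨c', qeq_trans 7 m hQ hQ', ?_, ?_⟩
  · intro x hx p hpp hpx
    by_cases h7 : ∃ p ∈ [2, 3, 5], addOrderOf x = (D + 1) / p
    · obtain ⟨r, hr, hrx⟩ := h7
      refine hpD p (Nat.mem_primeFactors.2 ⟨hpp, hpx.trans ?_, Nat.succ_ne_zero D⟩)
      rw [hrx]
      exact Nat.div_dvd_of_dvd (Nat.dvd_of_mem_primeFactors (hmem r hr))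
    · push Not at h7
      by_cases h8 : addOrderOf x = D + 1
      · exact absurd (h5 x h8) hx
      · rw [h6 x h8 h7] at hx
        exact hp x hx p hpp hpx
  · intro x hx hqx
    by_cases h8 : addOrderOf x = D + 1
    · exact absurd (h5 x h8) hx
    · by_cases h7 : ∃ p ∈ [2, 3, 5], addOrderOf x = (D + 1) / p
      · obtain ⟨r, hr, hrx⟩ := h7
        have h9 : (D + 1) / r < D + 1 :=
          Nat.div_lt_self (Nat.succ_pos D) (Nat.prime_of_mem_primeFactors (hmem r hr)).one_lt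
        rw [hrx]
        exact Nat.lt_succ_iff.1 h9
      · push Not at h7
        rw [h6 x h8 h7] at hx
        have := hK x hx hqx
        omega

lemma MA_top (m D : ℕ) [NeZero m] (h420 : 420 ∣ D) (c0 c : ZMod m → ℤ)
    (hS : S4 D c0 c) (x : ZMod m) (h1 : D ∣ addOrderOf x) (h2 : addOrderOf x ≠ D) :
    anti c x = 0 := by
  by_contra h
  have h3 := hS.2.2 x h (h420.trans h1)
  exact h2 (Nat.le_antisymm h3 (Nat.le_of_dvd (addOrderOf_pos x) h1))

/-- the loop; `P` is a condition under which a stage may fail -/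
lemma MA_loop (m K : ℕ) [NeZero m] (c0 : ZMod m → ℤ) (P : Prop)
    (hmdv : ∀ D, D ≤ K → ∀ c, S4 D c0 c → ∀ _ : NeZero D, 420 ∣ D → D ∣ m →
      (∀ p ∈ D.primeFactors, p ≤ 7) →
      MDv (Gam D) [2, 3, 5] (fun z => anti c (emb D m (z : ZMod D))) ∨ P) :
    ∀ k, k ≤ K → ∀ c, S4 k c0 c → (∃ c', S4 0 c0 c') ∨ P := by
  intro k
  induction k with
  | zero => exact fun _ c hc => Or.inl ⟨c, hc⟩
  | succ k ih =>
    intro hk c hc
    by_cases hP : P
    · exact Or.inr hP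
    obtain ⟨c', hc'⟩ := MA_step m k c0 c hc
      (fun hN hqD hDm hpr => (hmdv (k + 1) hk c hc hN hqD hDm hpr).resolve_right hP)
    exact ih (by omega) c' hc'

open Pool.Agent.helper34.DH in
/-- the case of points of a single order -/
theorem single (E : AddSubgroup Qt) (hE : hh ∈ E) (m D : ℕ) [NeZero m] [NeZero D] (hD : D ∣ m)
    (h420 : 420 ∣ D) (hpr : ∀ p ∈ D.primeFactors, p ≤ 7) (h49 : ¬ 49 ∣ D) (c0 : ZMod m → ℤ)
    (hT : TateF (anti c0)) (hs : ∀ x, anti c0 x ≠ 0 → addOrderOf x = D)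
    (h12 : ∑ x, |anti c0 x| ≤ 12) :
    ∃ c' : ZMod m → ℤ, TateF (anti c') ∧
      (∀ x, anti c' x ≠ 0 → (∀ p : ℕ, p.Prime → p ∣ addOrderOf x → p ≤ 7) ∧
        ¬ 420 ∣ addOrderOf x) ∧ cls m c0 - cls m c' ∈ E := by
  have hD0 : D ≠ 0 := NeZero.ne D
  have hL := MA_factors D hD0 h420 hpr
  have hnd : (7 :: [2, 3, 5]).Nodup := by decide
  have h7D : 7 ∣ D := (by norm_num : 7 ∣ 420).trans h420
  have hodd : ∀ x : (ZMod D)ˣ, anti c0 (emb D m ((-x : (ZMod D)ˣ) : ZMod D))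
      = - anti c0 (emb D m (x : ZMod D)) := by
    intro x
    rw [Units.val_neg, emb_neg hD, anti_odd]
  have hsm : ∀ x, anti c0 x ≠ 0 → ∀ p : ℕ, p.Prime → p ∣ addOrderOf x → p ≤ 7 := by
    intro x hx p hpp hpx
    rw [hs x hx] at hpx
    exact hpr p (Nat.mem_primeFactors.2 ⟨hpp, hpx, hD0⟩)
  by_cases hD420 : D = 420
  · subst hD420
    -- one step
    obtain ⟨c', hc'⟩ := MA_step m 419 c0 c0
      ⟨qeq_refl 7 m c0, hsm, fun x hx _ => (hs x hx).le⟩
      (fun _ _ _ _ => t2 m hD c0 hT hs)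
    refine ⟨c', hc'.1.2.1 hT, fun x hx => ⟨hc'.2.1 x hx, fun h => ?_⟩, ?_⟩
    · have h1 := hc'.2.2 x hx h
      have h2 := Nat.le_of_dvd (addOrderOf_pos x) h
      omega
    · obtain ⟨j, hj⟩ := hc'.1.1
      rw [hj]
      have h3 : cls m c0 - (cls m c0 + j • hh) = -(j • hh) := by abel
      rw [h3]
      exact E.neg_mem (E.zsmul_mem hE j)
  -- the special step
  have hmd : MDv (Gam D) [7, 2, 3, 5] (fun z => anti c0 (emb D m (z : ZMod D))) := by
    refine mdiff m (anti c0) (anti_odd c0) hT D hD ?_ _ ?_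
    · intro x _ h2
      by_contra h
      exact h2 (hs x h)
    · intro p hp
      rw [← hL] at hp
      exact List.mem_toFinset.1 hp
  have h12' : ∑ z : (ZMod D)ˣ, |anti c0 (emb D m (z : ZMod D))| ≤ 12 := by
    refine le_trans ?_ h12
    classical
    rw [← Finset.sum_image (f := fun x => |anti c0 x|) (s := univ)
      (g := fun z : (ZMod D)ˣ => emb D m (z : ZMod D))
      (fun z _ w _ h => Units.ext (emb_injective hD h))]
    exact Finset.sum_le_sum_of_subset_of_nonneg (Finset.subset_univ _) fun _ _ _ => abs_nonneg _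
  obtain ⟨N, a, hN1, hN2, hN3, hN4⟩ := t3 D h420 hD420 h49 h7D hpr _ hodd hmd h12'
  have hD7 : NeZero (D / 7) := ⟨(Nat.div_pos (Nat.le_of_dvd (Nat.pos_of_ne_zero hD0) h7D)
    (by norm_num)).ne'⟩
  obtain ⟨g, ν, hg1, hg2, hg3, hg4, hg5, j, hg6⟩ := Pool.Agent.helper88.OF.move1 m D (D / 7) 7 hD
    (Nat.div_mul_cancel h7D) (by norm_num) N hN1 hN2
  have hD7m : D / 7 ∣ m := (Nat.div_dvd_of_dvd h7D).trans hD
  have h7n : ¬ 7 ∣ D / 7 := by
    intro h
    apply h49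
    obtain ⟨b, hb⟩ := h
    exact ⟨b, by rw [← Nat.div_mul_cancel h7D, hb]; ring⟩
  set c1 : ZMod m → ℤ := fun x => c0 x - g x with hc1
  have ha1 : ∀ x, anti c1 x = anti c0 x - (ext D m N x - ext (D / 7) m (Rop 7 (D / 7) ν) x) := by
    intro x
    rw [hc1, anti_sub, hg4]
  have hT1 : TateF (anti c1) := by
    intro t
    have h1 : ∀ x, anti c1 x = anti c0 x - anti g x := fun x => by rw [hc1, anti_sub]
    simp_rw [h1, sub_mul]
    rw [Finset.sum_sub_distrib, hT t, hg5 t, sub_zero]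
  have hord : ∀ x, anti c1 x ≠ 0 → addOrderOf x = D ∨ addOrderOf x = D / 7 := by
    intro x hx
    by_contra h
    push Not at h
    apply hx
    rw [ha1, ext_of_order_ne hD _ _ h.1, ext_of_order_ne hD7m _ _ h.2]
    have : anti c0 x = 0 := by
      by_contra h0
      exact h.1 (hs x h0)
    rw [this]; ring
  have hf1 : ∀ z : (ZMod D)ˣ, anti c1 (emb D m (z : ZMod D)) =
      anti c0 (emb D m (z : ZMod D)) - N z := by
    intro z
    rw [ha1, ext_emb hD, ext_of_order_ne hD7m]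
    · ring
    · rw [addOrderOf_emb hD]
      intro h
      have := Nat.div_lt_self (Nat.pos_of_ne_zero hD0) (show 1 < 7 by norm_num)
      omega
  have hsm1 : ∀ x, anti c1 x ≠ 0 → ∀ p : ℕ, p.Prime → p ∣ addOrderOf x → p ≤ 7 := by
    intro x hx p hpp hpx
    refine hpr p (Nat.mem_primeFactors.2 ⟨hpp, ?_, hD0⟩)
    rcases hord x hx with h | h
    · rwa [h] at hpx
    · rw [h] at hpx
      exact hpx.trans (Nat.div_dvd_of_dvd h7D)
  have hK1 : ∀ x, anti c1 x ≠ 0 → 7 ∣ addOrderOf x → addOrderOf x = D := by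
    intro x hx h7x
    rcases hord x hx with h | h
    · exact h
    · rw [h] at h7x
      exact absurd h7x h7n
  obtain ⟨c2, hc2⟩ := MA_step m (D - 1) c1 c1 (by
      rw [Nat.sub_add_cancel (Nat.pos_of_ne_zero hD0)]
      exact ⟨qeq_refl 7 m c1, hsm1, fun x hx h => (hK1 x hx ((by norm_num : 7 ∣ 420).trans h)).le⟩)
    (by
      rw [Nat.sub_add_cancel (Nat.pos_of_ne_zero hD0)]
      intro _ _ _ _
      have : (fun z : (ZMod D)ˣ => anti c1 (emb D m (z : ZMod D))) =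
          fun z : (ZMod D)ˣ => anti c0 (emb D m (z : ZMod D)) - N z := funext hf1
      rw [this]
      exact hN3)
  have hloop := MA_loop m (D - 1) c1 False (by
    intro D' hD' c hS hN' h420' hDm' hpr'
    left
    refine t4 m D D' hD hDm' h420 h420' ?_ h49 h7D hpr hpr' c1 c (hS.1.2.1 hT1)
      (fun x h7x hx => hK1 x hx h7x) a ?_ hS.1 (MA_top m D' h420' c1 c hS)
    · have := Nat.pos_of_ne_zero hD0
      omega
    · simp_rw [hf1]
      exact hN4) (D - 1) le_rfl c2 hc2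
  rcases hloop with ⟨c', hQ, hp, hK⟩ | h
  swap
  · exact h.elim
  refine ⟨c', hQ.2.1 hT1, fun x hx => ⟨hp x hx, fun h => ?_⟩, ?_⟩
  · have h1 := hK x hx h
    have := addOrderOf_pos x
    omega
  · obtain ⟨i, hi⟩ := hQ.1
    have h1 : cls m c1 = cls m c0 - j • hh := by rw [hc1, cls_sub, hg6]
    have h3 : cls m c0 - cls m c' = (j - i) • hh := by
      rw [hi, h1, sub_smul]; abel
    rw [h3]
    exact E.zsmul_mem hE _

open Pool.Agent.helper34.DH in
theorem phase420 (E : AddSubgroup Qt) (hE : hh ∈ E) (m : ℕ) [NeZero m] (c0 : ZMod m → ℤ)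
    (hT : TateF (anti c0)) (hI : Inv (anti c0))
    (hsm : ∀ x, anti c0 x ≠ 0 → ∀ p : ℕ, p.Prime → p ∣ addOrderOf x → p ≤ 7) :
    ∃ c' : ZMod m → ℤ, TateF (anti c') ∧
      (∀ x, anti c' x ≠ 0 → (∀ p : ℕ, p.Prime → p ∣ addOrderOf x → p ≤ 7) ∧
        ¬ 420 ∣ addOrderOf x) ∧ cls m c0 - cls m c' ∈ E := by
  have hm0 : 0 < m := Nat.pos_of_ne_zero (NeZero.ne m)
  have h := MA_loop m m c0 (∃ D, 420 ∣ D ∧ D ∣ m ∧ (∀ p ∈ D.primeFactors, p ≤ 7) ∧ ¬ 49 ∣ D ∧
      (∀ x, anti c0 x ≠ 0 → addOrderOf x = D) ∧ ∑ x, |anti c0 x| ≤ 12) (by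
    intro D _ c hS hN h420 hDm hpr
    rcases t1_fin m D hDm h420 hpr c0 c hsm hT hI hS.1 (MA_top m D h420 c0 c hS) with h | h
    · exact Or.inl h
    · exact Or.inr ⟨D, h420, hDm, hpr, h⟩) m le_rfl c0
    ⟨qeq_refl 7 m c0, hsm, fun x _ _ => Nat.le_of_dvd hm0 (addOrderOf_dvd' x)⟩
  rcases h with ⟨c', hQ, hp, hK⟩ | ⟨D, h420, hDm, hpr, h49, hs, h12⟩
  · refine ⟨c', hQ.2.1 hT, fun x hx => ⟨hp x hx, fun h => ?_⟩, ?_⟩
    · have h1 := hK x hx h
      have := addOrderOf_pos x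
      omega
    · obtain ⟨j, hj⟩ := hQ.1
      rw [hj]
      have h3 : cls m c0 - (cls m c0 + j • hh) = -(j • hh) := by abel
      rw [h3]
      exact E.neg_mem (E.zsmul_mem hE j)
  · have hN : NeZero D := ⟨by rintro rfl; exact absurd (Nat.eq_zero_of_zero_dvd hDm) hm0.ne'⟩
    exact single E hE m D hDm h420 hpr h49 c0 hT hs h12

open Pool.Agent.helper34.DH in
/-- the main theorem for functions -/
theorem main (E : AddSubgroup Qt) (hE : hh ∈ E)
    (hF : ∀ D : ℕ, ∀ _ : NeZero D,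
      D ∈ ({12, 15, 20, 21, 28, 33, 35, 39, 44, 51, 52, 57} : Finset ℕ) → FixE E D)
    (m : ℕ) [NeZero m] (h110 : 55 ∣ m → Even m → ∀ _ : NeZero 55, FixE E 55)
    (c : ZMod m → ℤ) (hT : TateF (anti c)) (h12 : ∑ x, |anti c x| ≤ 12) : cls m c ∈ E := by
  have hm0 : 0 < m := Nat.pos_of_ne_zero (NeZero.ne m)
  have hI : Inv (anti c) := by
    have h1 : (∑ x, if addOrderOf x ∣ 60 then 0 else |anti c x|) ≤ ∑ x, |anti c x| :=
      Finset.sum_le_sum fun x _ => by
        split_ifs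
        · exact abs_nonneg _
        · exact le_rfl
    refine ⟨h1.trans h12, fun h x hx => ?_⟩
    by_contra h0
    have h2 : (∑ x, if addOrderOf x ∣ 60 then 0 else |anti c x|) < ∑ x, |anti c x| := by
      refine Finset.sum_lt_sum (fun x _ => ?_) ⟨x, Finset.mem_univ _, ?_⟩
      · split_ifs
        · exact abs_nonneg _
        · exact le_rfl
      · rw [if_pos hx]
        exact abs_pos.2 h0
    omega
  obtain ⟨c1, hT1, hI1, hp1, h1⟩ := big_primes E hE
    (fun D hN hD => hF D hN (by revert hD; simp; tauto)) m h110 m c hT hI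
    (fun x _ p _ hpx => (Nat.le_of_dvd (addOrderOf_pos x) hpx).trans
      (Nat.le_of_dvd hm0 (addOrderOf_dvd' x)))
  obtain ⟨c2, hT2, hp2, h2⟩ := phase420 E hE m c1 hT1 hI1 hp1
  have h3 := smooth E hE (fun D hN hD => hF D hN (by revert hD; simp; tauto)) m c2 hT2 hp2
  have h4 := E.add_mem (E.add_mem h1 h2) h3
  rwa [sub_add_sub_cancel, sub_add_cancel] at h4

end Pool.Agent.helper88.EF
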