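import Pool.Agent.helper82.EF.GF
import Pool.Agent.helper1.EF.FN
import Pool.Agent.helper33.EF.QS
import Pool.Agent.helper23.EF.QD
import Pool.Agent.helper15.EF.CO
import Pool.Agent.helper13.EF.DL
import Pool.Agent.helper52.EF.CT
import Pool.Agent.helper23.EF.RS
import Pool.Agent.helper33.EF.RA
import Pool.Agent.helper78.EF.RB
import Pool.Agent.helper33.EF.RC
import Pool.Agent.helper78.EF.RD
import Pool.Agent.helper13.EF.RE
import Pool.Agent.helper18.EF.RF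
import Pool.Agent.helper18.EF.RG
import Pool.Agent.helper1.EF.RH
import Pool.Agent.helper1.EF.RI
import Pool.Agent.helper70.EF.RL
import Pool.Agent.helper97.EF.S65
import Pool.Agent.helper80.EF.S69
import Pool.Agent.helper15.EF.FX
import Pool.Agent.helper63.EF.TL
import Pool.Agent.helper27.EF.T1
import Pool.Agent.helper63.EF.T2
import Pool.Agent.helper63.EF.T3
import Pool.Agent.helper63.EF.T4
import Pool.Agent.helper97.EF.SM

/-! # Project EF: the modules -/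

namespace Pool.Agent.helper88.EF

open Finset Pool.Agent.helper76.LP

theorem s65_fin (m : ℕ) [NeZero m] (hD : 65 ∣ m) (c0 c : ZMod m → ℤ) (hT : TateF (anti c0))
    (hI : Inv (anti c0)) (hQ : QEq 13 c0 c)
    (hmax : ∀ x, anti c x ≠ 0 → 13 ∣ addOrderOf x → addOrderOf x ≤ 65) :
    MDv (Gam 65) [5] (fun z => anti c (emb 65 m (z : ZMod 65))) :=
  s65_of func m hD c0 c hT hI hQ hmax

theorem t1_fin (m D : ℕ) [NeZero m] [NeZero D] (hD : D ∣ m) (h420 : 420 ∣ D)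
    (hpr : ∀ p ∈ D.primeFactors, p ≤ 7) (c0 c : ZMod m → ℤ)
    (hsm : ∀ x, anti c0 x ≠ 0 → ∀ p : ℕ, p.Prime → p ∣ addOrderOf x → p ≤ 7)
    (hT : TateF (anti c0)) (hI : Inv (anti c0)) (hQ : QEq 7 c0 c)
    (hmax : ∀ x, D ∣ addOrderOf x → addOrderOf x ≠ D → anti c x = 0) :
    MDv (Gam D) [2, 3, 5] (fun z => anti c (emb D m (z : ZMod D))) ∨
      (¬ 49 ∣ D ∧ (∀ x, anti c0 x ≠ 0 → addOrderOf x = D) ∧ ∑ x, |anti c0 x| ≤ 12) :=
  t1_of ⟨gf, func, est_of, mdv_of_dl, dl_erase, cube_test, bd_one, gam_cyclic, neg_one_not, r1⟩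
    m D hD h420 hpr c0 c hsm hT hI hQ hmax

theorem rl_fin (D q : ℕ) [NeZero D] (L : List ℕ) (ev : Prop) (f : (ZMod D)ˣ → ℤ)
    (h : RHyp D q L ev f) (h11 : 11 ≤ q) (hpr : ∀ p ∈ D.primeFactors, p ≤ q)
    (h3 : D = 3 * q → 29 ≤ q) (h4 : D = 4 * q → 17 ≤ q) (h5 : D = 5 * q → 17 ≤ q) :
    MDv (Gam D) L f :=
  rl_of (fun D q _ L ev f h c => r1 D q L ev f h c.1 c.2)
    (fun D q _ L ev f h c => r2 D q L ev f h c.1 c.2.1 c.2.2.1 c.2.2.2.1 c.2.2.2.2)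
    (fun D q _ L ev f h c => r3 D q L ev f h c.1 c.2)
    (fun D q _ L ev f h c => r4 D q L ev f h c)
    (fun D q _ L ev f h c => r5 D q L ev f h c.1 c.2)
    (fun D q _ L ev f h c => r6 D q L ev f h c.1 c.2)
    (fun D q _ L ev f h c => r7 D q L ev f h c.1 c.2.1 c.2.2.1 c.2.2.2.1 c.2.2.2.2)
    (fun D q _ L ev f h c => r8 D q L ev f h c.1 c.2.1 c.2.2.1 c.2.2.2)
    (fun D q _ L ev f h c => r9 D q L ev f h c.1 c.2.1 c.2.2.1 c.2.2.2.1 c.2.2.2.2)
    (fun D q _ L ev f h c => r10 D q L ev f h c.1 c.2.1 c.2.2.1 c.2.2.2.1 c.2.2.2.2.1 c.2.2.2.2.2)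
    (fun D q _ L ev f h c => r11 D q L ev f h c.1 c.2)
    (fun D q _ L ev f h c => r12 D q L ev f h c.1 c.2)
    (fun D q _ L ev f h c => r13 D q L ev f h c.1 c.2)
    (fun D q _ L ev f h c => r14 D q L ev f h c.1 c.2)
    (fun D q _ L ev f h c => r15 D q L ev f h c.1 c.2)
    (fun D q _ L ev f h c => r16 D q L ev f h c.1 c.2)
    (fun D q _ L ev f h c => r17 D q L ev f h c.1 c.2)
    D q L ev f h h11 hpr h3 h4 h5

end Pool.Agent.helper88.EF
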