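import Pool.Agent.helper88.EF.Mods

/-! # Project EF: removing the orders divisible by a prime `q ≥ 11` -/

namespace Pool.Agent.helper88.EF

open Finset Pool.Agent.helper76.LP

/-- the state of the loop -/
def St (q K : ℕ) {m : ℕ} [NeZero m] (c0 c : ZMod m → ℤ) : Prop :=
  QEq q c0 c ∧ (∀ x, anti c x ≠ 0 → ∀ p : ℕ, p.Prime → p ∣ addOrderOf x → p ≤ q) ∧
    ∀ x, anti c x ≠ 0 → q ∣ addOrderOf x → addOrderOf x ≤ K

lemma PH_mdv_zero {G ι : Type*} [CommGroup G] (Γ : ι → Subgroup G) (L : List ι) (f : G → ℤ)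
    (hf : ∀ x, f x = 0) : MDv Γ L f := by
  induction L generalizing f with
  | nil => exact hf
  | cons i L ih =>
    intro u _
    exact ih _ fun x => by simp [hf]

lemma PH_list (D q : ℕ) [NeZero D] (hq : q.Prime) (hqD : q ∣ D) :
    ∃ L : List ℕ, (q :: L).Nodup ∧ (q :: L).toFinset = D.primeFactors := by
  refine ⟨(D.primeFactors.erase q).toList, ?_, ?_⟩
  · rw [List.nodup_cons]
    exact ⟨by simp, Finset.nodup_toList _⟩
  · rw [List.toFinset_cons, Finset.toList_toFinset, Finset.insert_erase]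
    exact Nat.mem_primeFactors.2 ⟨hq, hqD, NeZero.ne D⟩

/-- one step of the loop -/
lemma PH_step (m q D : ℕ) [NeZero m] (hq : q.Prime) (h3 : 3 ≤ q) (c0 c : ZMod m → ℤ)
    (hS : St q (D + 1) c0 c)
    (hmdv : ∀ _ : NeZero (D + 1), q ∣ D + 1 → D + 1 ∣ m → ∀ L : List ℕ, (q :: L).Nodup →
      (q :: L).toFinset = (D + 1).primeFactors → (∀ p ∈ (D + 1).primeFactors, p ≤ q) →
      MDv (Gam (D + 1)) L (fun z => anti c (emb (D + 1) m (z : ZMod (D + 1))))) :
    ∃ c', St q D c0 c' := by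
  obtain ⟨hQ, hp, hK⟩ := hS
  by_cases hqD : q ∣ D + 1
  swap
  · refine ⟨c, hQ, hp, fun x hx hqx => ?_⟩
    have h1 := hK x hx hqx
    have h2 : addOrderOf x ≠ D + 1 := fun h => hqD (h ▸ hqx)
    omega
  by_cases hDm : D + 1 ∣ m
  swap
  · refine ⟨c, hQ, hp, fun x hx hqx => ?_⟩
    have h1 := hK x hx hqx
    have h2 : addOrderOf x ≠ D + 1 := fun h => hDm (h ▸ addOrderOf_dvd' x)
    omega
  have hN : NeZero (D + 1) := ⟨Nat.succ_ne_zero D⟩
  obtain ⟨L, hnd, hL⟩ := PH_list (D + 1) q hq hqD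
  have hodd : ∀ x : (ZMod (D + 1))ˣ, anti c (emb (D + 1) m ((-x : (ZMod (D + 1))ˣ) : ZMod (D + 1)))
      = - anti c (emb (D + 1) m (x : ZMod (D + 1))) := by
    intro x
    rw [Units.val_neg, emb_neg hDm, anti_odd]
  by_cases hex : ∃ z : (ZMod (D + 1))ˣ, anti c (emb (D + 1) m (z : ZMod (D + 1))) ≠ 0
  swap
  · push Not at hex
    refine ⟨c, hQ, hp, fun x hx hqx => ?_⟩
    have h1 := hK x hx hqx
    have h2 : addOrderOf x ≠ D + 1 := by
      intro h
      obtain ⟨z, rfl⟩ := exists_emb x h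
      exact hx (hex z)
    omega
  obtain ⟨z, hz⟩ := hex
  have hpD : ∀ p ∈ (D + 1).primeFactors, p ≤ q := by
    intro p hpD
    refine hp _ hz p (Nat.prime_of_mem_primeFactors hpD) ?_
    rw [addOrderOf_emb hDm]
    exact Nat.dvd_of_mem_primeFactors hpD
  have hM := hmdv hN hqD hDm L hnd hL hpD
  obtain ⟨N, h1, h2, h4⟩ := qdec (D + 1) q hq h3 L hnd hL _ hodd hM
  obtain ⟨c', hQ', h5, h6⟩ := qstep m (D + 1) q hDm hqD L hnd hL c N h1 h2 h4
  have hmem : ∀ r ∈ L, r ∈ (D + 1).primeFactors := by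
    intro r hr
    rw [← hL]
    simp [hr]
  refine ⟨c', qeq_trans q m hQ hQ', ?_, ?_⟩
  · intro x hx p hpp hpx
    by_cases h7 : ∃ p ∈ L, addOrderOf x = (D + 1) / p
    · obtain ⟨r, hr, hrx⟩ := h7
      refine hpD p (Nat.mem_primeFactors.2 ⟨hpp, hpx.trans ?_, Nat.succ_ne_zero D⟩)
      rw [hrx]
      exact Nat.div_dvd_of_dvd (Nat.dvd_of_mem_primeFactors (hmem r hr))
    · push Not at h7
      by_cases h8 : addOrderOf x = D + 1
      · exact absurd (h5 x h8) hx
      · rw [h6 x h8 h7] at hx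
        exact hp x hx p hpp hpx
  · intro x hx hqx
    by_cases h8 : addOrderOf x = D + 1
    · exact absurd (h5 x h8) hx
    · by_cases h7 : ∃ p ∈ L, addOrderOf x = (D + 1) / p
      · obtain ⟨r, hr, hrx⟩ := h7
        have h9 : (D + 1) / r < D + 1 :=
          Nat.div_lt_self (Nat.succ_pos D) (Nat.prime_of_mem_primeFactors (hmem r hr)).one_lt
        rw [hrx]
        exact Nat.lt_succ_iff.1 h9
      · push Not at h7
        rw [h6 x h8 h7] at hx
        have := hK x hx hqx
        omega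

/-- the loop from `K` down to `K0` -/
lemma PH_loop (m q K0 : ℕ) [NeZero m] (hq : q.Prime) (h3 : 3 ≤ q) (c0 : ZMod m → ℤ)
    (hmdv : ∀ D, K0 < D → ∀ c, St q D c0 c → ∀ _ : NeZero D, q ∣ D → D ∣ m → ∀ L : List ℕ,
      (q :: L).Nodup → (q :: L).toFinset = D.primeFactors → (∀ p ∈ D.primeFactors, p ≤ q) →
      MDv (Gam D) L (fun z => anti c (emb D m (z : ZMod D)))) :
    ∀ k c, St q (K0 + k) c0 c → ∃ c', St q K0 c0 c' := by
  intro k
  induction k with
  | zero => exact fun c hc => ⟨c, hc⟩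
  | succ k ih =>
    intro c hc
    obtain ⟨c', hc'⟩ := PH_step m q (K0 + k) hq h3 c0 c hc
      (fun hN hqD hDm L hnd hL hpr => hmdv (K0 + k + 1) (by omega) c hc hN hqD hDm L hnd hL hpr)
    exact ih c' hc'

/-- the bound for the points of order divisible by `q` -/
lemma PH_bound (m q : ℕ) [NeZero m] (hq : q.Prime) (h7 : 7 ≤ q) (F : ZMod m → ℤ) (hI : Inv F) :
    (∑ x, if q ∣ addOrderOf x then |F x| else 0) ≤ 12 := by
  refine le_trans (Finset.sum_le_sum fun x _ => ?_) hI.1
  split_ifs with h1 h2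
  · exfalso
    have := h1.trans h2
    have h60 : q ∈ Nat.primeFactors 60 := Nat.mem_primeFactors.2 ⟨hq, this, by norm_num⟩
    have : Nat.primeFactors 60 = {2, 3, 5} := by decide +kernel
    rw [this] at h60
    simp at h60
    omega
  · exact le_rfl
  · exact le_rfl
  · exact abs_nonneg _

lemma PH_top (m q D : ℕ) [NeZero m] (hqD : q ∣ D) (c0 c : ZMod m → ℤ)
    (hS : St q D c0 c) (x : ZMod m) (h1 : D ∣ addOrderOf x) (h2 : addOrderOf x ≠ D) :
    anti c x = 0 := by
  by_contra h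
  have h3 := hS.2.2 x h (hqD.trans h1)
  exact h2 (Nat.le_antisymm h3 (Nat.le_of_dvd (addOrderOf_pos x) h1))

lemma PH_rhyp (m q D : ℕ) [NeZero m] [NeZero D] (hq : q.Prime) (h7 : 7 ≤ q) (hqD : q ∣ D)
    (hD : D ∣ m) (h4 : D % 4 ≠ 2) (c0 c : ZMod m → ℤ) (hT : TateF (anti c0)) (hI : Inv (anti c0))
    (hS : St q D c0 c) (L : List ℕ) (hnd : (q :: L).Nodup)
    (hL : (q :: L).toFinset = D.primeFactors) :
    RHyp D q L (Even m) (fun z => anti c (emb D m (z : ZMod D))) where
  hq := hq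
  nd := hnd
  hL := hL
  h4 := h4
  odd := by
    intro x
    rw [Units.val_neg, emb_neg hD, anti_odd]
  mdv := mdiff m (anti c) (anti_odd c) (hS.1.2.1 hT) D hD (PH_top m q D hqD c0 c hS) _ (by
    intro p hp
    rw [← hL] at hp
    exact List.mem_toFinset.1 hp)
  est := est_of m D q hD hq hqD c0 c hS.1 (PH_top m q D hqD c0 c hS)
    (PH_bound m q hq h7 _ hI)

lemma PH_sing (L : List ℕ) (q a : ℕ) (ha : a ≠ q) (hnd : (q :: L).Nodup)
    (h : (q :: L).toFinset = {a, q}) : L = [a] := by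
  obtain ⟨h1, h2⟩ := List.nodup_cons.1 hnd
  have hmem : ∀ x, x = q ∨ x ∈ L ↔ x = a ∨ x = q := by
    intro x
    have := congrArg (fun s => x ∈ s) h
    simpa using this
  have hall : ∀ x ∈ L, x = a := by
    intro x hx
    rcases (hmem x).1 (Or.inr hx) with h3 | h3
    · exact h3
    · exact absurd (h3 ▸ hx) h1
  have haL : a ∈ L := by
    rcases (hmem a).2 (Or.inl rfl) with h3 | h3
    · exact absurd h3 ha
    · exact h3
  have hlen : L.length = 1 := by
    have h3 : L.toFinset = {a} := by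
      ext x
      rw [List.mem_toFinset, Finset.mem_singleton]
      exact ⟨hall x, fun h => h ▸ haL⟩
    rw [← List.toFinset_card_of_nodup h2, h3, Finset.card_singleton]
  obtain ⟨b, rfl⟩ := List.length_eq_one_iff.1 hlen
  rw [hall b (by simp)]

open Pool.Agent.helper34.DH in
/-- removing the orders divisible by `q` -/
theorem phase (E : AddSubgroup Qt) (hE : hh ∈ E)
    (hF : ∀ D : ℕ, ∀ _ : NeZero D, D ∈ ({33, 39, 44, 51, 52, 57} : Finset ℕ) → FixE E D)
    (m : ℕ) [NeZero m] (h110 : 55 ∣ m → Even m → ∀ _ : NeZero 55, FixE E 55)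
    (q : ℕ) (hq : q.Prime) (h11 : 11 ≤ q) (c0 : ZMod m → ℤ) (hT : TateF (anti c0))
    (hI : Inv (anti c0))
    (hp : ∀ x, anti c0 x ≠ 0 → ∀ p : ℕ, p.Prime → p ∣ addOrderOf x → p ≤ q) :
    ∃ c' : ZMod m → ℤ, TateF (anti c') ∧ Inv (anti c') ∧
      (∀ x, anti c' x ≠ 0 → ∀ p : ℕ, p.Prime → p ∣ addOrderOf x → p < q) ∧
      cls m c0 - cls m c' ∈ E := by
  classical
  -- nothing to do
  by_cases h0 : ∀ x, q ∣ addOrderOf x → anti c0 x = 0
  · refine ⟨c0, hT, hI, ?_, by rw [sub_self]; exact E.zero_mem⟩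
    intro x hx p hpp hpx
    refine lt_of_le_of_ne (hp x hx p hpp hpx) ?_
    rintro rfl
    exact hx (h0 x hpx)
  push Not at h0
  obtain ⟨x0, hx0, hx0'⟩ := h0
  -- the number `k`
  obtain ⟨k, hk5, hk1, hk2⟩ : ∃ k ≤ 5, (∀ n, 3 ≤ n → n ≤ k → n * q ∣ m →
      ∀ _ : NeZero (n * q), FixE E (n * q)) ∧
      ((q = 11 ∧ (k = 5 ∨ (k = 4 ∧ (55 ∣ m → ¬ Even m)))) ∨ (q = 13 ∧ k = 4) ∨ (q = 17 ∧ k = 3) ∨
        (q = 19 ∧ k = 3) ∨ 23 ≤ q) := by
    rcases Nat.lt_or_ge q 23 with h23 | h23
    swap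
    · exact ⟨0, by norm_num, fun n h3 h => by omega, by tauto⟩
    interval_cases q
    · by_cases h : 55 ∣ m → ¬ Even m
      · refine ⟨4, by norm_num, fun n h3 h4 _ => ?_, by tauto⟩
        interval_cases n
        · exact fun hN => hF 33 hN (by decide)
        · exact fun hN => hF 44 hN (by decide)
      · push Not at h
        refine ⟨5, by norm_num, fun n h3 h4 _ => ?_, by tauto⟩
        interval_cases n
        · exact fun hN => hF 33 hN (by decide)
        · exact fun hN => hF 44 hN (by decide)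
        · exact fun hN => h110 h.1 h.2 hN
    · exact absurd hq (by norm_num)
    · refine ⟨4, by norm_num, fun n h3 h4 _ => ?_, by tauto⟩
      interval_cases n
      · exact fun hN => hF 39 hN (by decide)
      · exact fun hN => hF 52 hN (by decide)
    · exact absurd hq (by norm_num)
    · exact absurd hq (by norm_num)
    · exact absurd hq (by norm_num)
    · refine ⟨3, by norm_num, fun n h3 h4 _ => ?_, by tauto⟩
      interval_cases n
      exact fun hN => hF 51 hN (by decide)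
    · exact absurd hq (by norm_num)
    · refine ⟨3, by norm_num, fun n h3 h4 _ => ?_, by tauto⟩
      interval_cases n
      exact fun hN => hF 57 hN (by decide)
    · exact absurd hq (by norm_num)
    · exact absurd hq (by norm_num)
    · exact absurd hq (by norm_num)
  have hqm : q ∣ m := hx0.trans (addOrderOf_dvd' x0)
  -- the loop
  have hloop : ∀ D, k * q < D → ∀ c, St q D c0 c → ∀ _ : NeZero D, q ∣ D → D ∣ m →
      ∀ L : List ℕ, (q :: L).Nodup → (q :: L).toFinset = D.primeFactors →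
      (∀ p ∈ D.primeFactors, p ≤ q) →
      MDv (Gam D) L (fun z => anti c (emb D m (z : ZMod D))) := by
    intro D hkD c hS hN hqD hDm L hnd hL hpr
    by_cases h4 : D % 4 = 2
    · refine mdv_two D q h4 L ?_ _
      have h2 : (2 : ℕ) ∈ (q :: L).toFinset := by
        rw [hL]
        exact Nat.mem_primeFactors.2 ⟨Nat.prime_two, by omega, hN.out⟩
      rw [List.mem_toFinset, List.mem_cons] at h2
      rcases h2 with h2 | h2
      · omega
      · exact h2
    have hR := PH_rhyp m q D hq (by omega) hqD hDm h4 c0 c hT hI hS L hnd hL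
    by_cases h65 : q = 13 ∧ D = 65
    · obtain ⟨rfl, rfl⟩ := h65
      have hL5 : L = [5] := by
        refine PH_sing L 13 5 (by norm_num) hnd ?_
        rw [hL]
        decide +kernel
      subst hL5
      exact s65_fin m hDm c0 c hT hI hS.1 hS.2.2
    by_cases h69 : q = 23 ∧ D = 69
    · obtain ⟨rfl, rfl⟩ := h69
      have hL5 : L = [3] := by
        refine PH_sing L 23 3 (by norm_num) hnd ?_
        rw [hL]
        decide +kernel
      subst hL5
      exact s69 m hDm c0 c hT hI hS.1 hS.2.2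
    by_cases h55 : q = 11 ∧ D = 55
    · obtain ⟨rfl, rfl⟩ := h55
      refine r18 55 11 L (Even m) ?_ _ hR le_rfl (by norm_num)
      rcases hk2 with h | h | h | h | h
      · rcases h.2 with h1 | h1
        · omega
        · exact h1.2 hDm
      all_goals omega
    refine rl_fin D q L (Even m) _ hR h11 hpr ?_ ?_ ?_
    · intro h3
      rcases hk2 with h | h | h | h | h
      · rcases h.2 with h1 | h1
        · rw [h1] at hkD; omega
        · rw [h1.1] at hkD; omega
      · rw [h.2] at hkD; omega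
      · rw [h.2] at hkD; omega
      · rw [h.2] at hkD; omega
      · by_contra h29
        push Not at h29
        interval_cases q
        · exact h69 ⟨rfl, by omega⟩
        all_goals exact absurd hq (by norm_num)
    · intro h3
      rcases hk2 with h | h | h | h | h
      · rcases h.2 with h1 | h1
        · rw [h1] at hkD; omega
        · rw [h1.1] at hkD; omega
      · rw [h.2] at hkD; omega
      all_goals omega
    · intro h3
      rcases hk2 with h | h | h | h | h
      · exact absurd ⟨h.1, by omega⟩ h55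
      · exact absurd ⟨h.1, by omega⟩ h65
      all_goals omega
  have hm0 : 0 < m := Nat.pos_of_ne_zero (NeZero.ne m)
  have hSt0 : ∀ K, m ≤ K → St q K c0 c0 := fun K hK => ⟨qeq_refl q m c0, hp, fun x _ _ =>
    (Nat.le_of_dvd hm0 (addOrderOf_dvd' x)).trans hK⟩
  obtain ⟨c1, hQ1, hp1, hK1⟩ := PH_loop m q (k * q) hq (by omega) c0 hloop m c0
    (hSt0 _ (Nat.le_add_left _ _))
  obtain ⟨c2, hT2, h2a, h2b, h2c⟩ := tail E hE m q hq (by omega) k hk5 hk1 c1 (hQ1.2.1 hT) hK1
  have h60 : ∀ x : ZMod m, addOrderOf x ∣ 60 → ¬ q ∣ addOrderOf x := by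
    intro x hx hqx
    have h60 : q ∈ Nat.primeFactors 60 := Nat.mem_primeFactors.2 ⟨hq, hqx.trans hx, by norm_num⟩
    have : Nat.primeFactors 60 = {2, 3, 5} := by decide +kernel
    rw [this] at h60
    simp at h60
    omega
  have h2d : ∀ x, ¬ q ∣ addOrderOf x → ¬ addOrderOf x ∣ 60 → anti c2 x = anti c0 x := by
    intro x h1 h2
    rw [h2b x h1 h2, hQ1.2.2.1 x h1]
  -- the norm has become smaller
  have hlt : (∑ x, if addOrderOf x ∣ 60 then 0 else |anti c2 x|) < 12 := by
    refine lt_of_lt_of_le (Finset.sum_lt_sum (g := fun x => if addOrderOf x ∣ 60 then (0 : ℤ)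
      else |anti c0 x|) ?_ ⟨x0, Finset.mem_univ _, ?_⟩) hI.1
    · intro x _
      split_ifs with h1
      · exact le_rfl
      · by_cases h2 : q ∣ addOrderOf x
        · rw [h2a x h2, abs_zero]; exact abs_nonneg _
        · rw [h2d x h2 h1]
    · have h1 : ¬ addOrderOf x0 ∣ 60 := fun h => h60 x0 h hx0
      rw [if_neg h1, if_neg h1, h2a x0 hx0, abs_zero]
      exact abs_pos.2 hx0'
  refine ⟨c2, hT2, ⟨hlt.le, fun h => absurd h hlt.ne⟩, ?_, ?_⟩
  · intro x hx p hpp hpx
    by_cases h1 : q ∣ addOrderOf x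
    · exact absurd (h2a x h1) hx
    by_cases h2 : addOrderOf x ∣ 60
    · have h60 : p ∈ Nat.primeFactors 60 :=
        Nat.mem_primeFactors.2 ⟨hpp, hpx.trans h2, by norm_num⟩
      have : Nat.primeFactors 60 = {2, 3, 5} := by decide +kernel
      rw [this] at h60
      simp at h60
      omega
    · rw [h2d x h1 h2] at hx
      refine lt_of_le_of_ne (hp x hx p hpp hpx) ?_
      rintro rfl
      exact h1 hpx
  · obtain ⟨j, hj⟩ := hQ1.1
    have h3 : cls m c0 - cls m c2 = (cls m c1 - cls m c2) - j • hh := by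
      rw [hj]; abel
    rw [h3]
    exact E.sub_mem h2c (E.zsmul_mem hE j)

end Pool.Agent.helper88.EF
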