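import Pool.Agent.helper88.EF.Defs

/-! # Project EF: module statements -/

namespace Pool.Agent.helper88.EF

open Finset Pool.Agent.helper76.LP

/-! ### GF: extension of test functions -/

theorem gf (m D q : ℕ) [NeZero m] [NeZero D] (hD : D ∣ m) (hq : q.Prime) (hqD : q ∣ D)
    (ψ : (ZMod D)ˣ → ℤ) (hT : Tst D q ψ) (B : ℤ) (hB : Bd D (Even m) ψ B) :
    ∃ s : ZMod m → ℚ, Ext m D q ψ s ∧ ∀ x, |s x| ≤ B := sorry

/-! ### FN: the functional -/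

theorem func (m D q : ℕ) [NeZero m] [NeZero D] (hD : D ∣ m) (c0 c : ZMod m → ℤ)
    (hQ : QEq q c0 c) (hmax : ∀ x, D ∣ addOrderOf x → addOrderOf x ≠ D → anti c x = 0)
    (ψ : (ZMod D)ˣ → ℤ) (s : ZMod m → ℚ) (hs : Ext m D q ψ s) :
    (((∑ z : (ZMod D)ˣ, anti c (emb D m (z : ZMod D)) * ψ z : ℤ) : ℚ)) =
      ∑ x, (anti c0 x : ℚ) * s x := sorry

theorem est_of (m D q : ℕ) [NeZero m] [NeZero D] (hD : D ∣ m) (hq : q.Prime) (hqD : q ∣ D)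
    (c0 c : ZMod m → ℤ) (hQ : QEq q c0 c)
    (hmax : ∀ x, D ∣ addOrderOf x → addOrderOf x ≠ D → anti c x = 0)
    (hb : (∑ x, if q ∣ addOrderOf x then |anti c0 x| else 0) ≤ 12) :
    Est D q (Even m) (fun z => anti c (emb D m (z : ZMod D))) := sorry

/-! ### QS: modifications in directions different from `q` -/

theorem qeq_refl (q m : ℕ) [NeZero m] (c : ZMod m → ℤ) : QEq q c c := sorry

theorem qeq_trans (q m : ℕ) [NeZero m] {c c' c'' : ZMod m → ℤ} (h : QEq q c c')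
    (h' : QEq q c' c'') : QEq q c c'' := sorry

theorem qstep (m D q : ℕ) [NeZero m] [NeZero D] (hD : D ∣ m) (hqD : q ∣ D)
    (L : List ℕ) (hnd : (q :: L).Nodup) (hL : (q :: L).toFinset = D.primeFactors)
    (c : ZMod m → ℤ) (N : ℕ → (ZMod D)ˣ → ℤ)
    (h1 : ∀ p ∈ L, ∀ u ∈ Gam D p, ∀ x, N p (u * x) = N p x)
    (h2 : ∀ z : (ZMod D)ˣ, anti c (emb D m (z : ZMod D)) = ∑ p ∈ L.toFinset, N p z)
    (h3 : ∀ p ∈ L, ∀ x, N p (-x) = - N p x) :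
    ∃ c' : ZMod m → ℤ, QEq q c c' ∧ (∀ x, addOrderOf x = D → anti c' x = 0) ∧
      (∀ x, addOrderOf x ≠ D → (∀ p ∈ L, addOrderOf x ≠ D / p) → anti c' x = anti c x) := sorry

/-! ### QD: decompositions without the direction `q` -/

theorem qdec (D q : ℕ) [NeZero D] (hq : q.Prime) (h3 : 3 ≤ q) (L : List ℕ)
    (hnd : (q :: L).Nodup) (hL : (q :: L).toFinset = D.primeFactors) (f : (ZMod D)ˣ → ℤ)
    (hodd : ∀ x, f (-x) = - f x) (hf : MDv (Gam D) L f) :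
    ∃ N : ℕ → (ZMod D)ˣ → ℤ, (∀ p ∈ L, ∀ u ∈ Gam D p, ∀ x, N p (u * x) = N p x) ∧
      (∀ z, f z = ∑ p ∈ L.toFinset, N p z) ∧ (∀ p ∈ L, ∀ x, N p (-x) = - N p x) := sorry

/-- `D ≡ 2 mod 4` -/
theorem mdv_two (D q : ℕ) [NeZero D] (hD : D % 4 = 2) (L : List ℕ) (h2 : 2 ∈ L)
    (f : (ZMod D)ˣ → ℤ) : MDv (Gam D) L f := sorry

/-! ### CO: the condition for the conductor `N` -/

theorem cond (m q N : ℕ) [NeZero m] [NeZero N] [NeZero (N * q)] (hq : q.Prime) (h3 : 3 ≤ q)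
    (hqN : q.Coprime N) (hD : N * q ∣ m) (c : ZMod m → ℤ) (hT : TateF (anti c))
    (hmax : ∀ x, N ∣ addOrderOf x → addOrderOf x ≠ N * q → anti c x = 0)
    (L : List ℕ) (hnd : L.Nodup) (hL : L.toFinset = N.primeFactors) :
    MDv (Gam N) L (fun y =>
      Vs (Dvd.intro q rfl) (fun z => anti c (emb (N * q) m (z : ZMod (N * q)))) y -
      Vs (Dvd.intro q rfl) (fun z => anti c (emb (N * q) m (z : ZMod (N * q))))
        (ZMod.unitOfCoprime q hqN * y)) := sorry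

/-! ### DL: iterated differences and generators -/

theorem mdv_of_dl {G : Type*} [CommGroup G] (Γ : ℕ → Subgroup G) (L : List ℕ) (hnd : L.Nodup)
    (V : ℕ → Set G) (hV : ∀ p ∈ L, Γ p ≤ Subgroup.closure (V p)) (f : G → ℤ)
    (h : ∀ v : ℕ → G, (∀ p ∈ L, v p ∈ V p) → ∀ x, dl v L f x = 0) : MDv Γ L f := sorry

theorem dl_of_mdv {G : Type*} [CommGroup G] (Γ : ℕ → Subgroup G) (L : List ℕ) (f : G → ℤ)
    (hf : MDv Γ L f) (v : ℕ → G) (hv : ∀ p ∈ L, v p ∈ Γ p) (x : G) : dl v L f x = 0 := sorry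

theorem dl_eq_sum {G : Type*} [CommGroup G] (v : ℕ → G) (L : List ℕ) (hnd : L.Nodup)
    (f : G → ℤ) (x : G) :
    dl v L f x = ∑ S ∈ L.toFinset.powerset, (-1) ^ (S.card + L.length) * f ((∏ p ∈ S, v p) * x) :=
  sorry

/-- one direction separated from the others -/
theorem dl_erase {G : Type*} [CommGroup G] (v : ℕ → G) (L : List ℕ) (p : ℕ) (hp : p ∈ L)
    (f : G → ℤ) (x : G) :
    dl v L f x = dl v (L.erase p) f (v p * x) - dl v (L.erase p) f x := sorry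

/-! ### CT: the test function of a cube -/

theorem cube_test (D q : ℕ) [NeZero D] (L : List ℕ) (hnd : (q :: L).Nodup)
    (hL : (q :: L).toFinset = D.primeFactors) (v : ℕ → (ZMod D)ˣ)
    (hv : ∀ p ∈ L, v p ∈ Gam D p) (hv1 : ∀ p ∈ L, v p ≠ 1)
    (h1 : (-1 : (ZMod D)ˣ) ∉ Pl (Gam D) (q :: L) ∨ ∃ p ∈ L, v p * v p ≠ 1) (z : (ZMod D)ˣ) :
    ∃ ψ : (ZMod D)ˣ → ℤ, Tst D q ψ ∧ Cub D q L v z ψ ∧
      ∀ f : (ZMod D)ˣ → ℤ, (∀ x, f (-x) = - f x) → MDv (Gam D) (q :: L) f →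
        ∑ x, f x * ψ x = 2 * (Nat.card (Gam D q) : ℤ) * dl v L f z := sorry

/-- bound 1 if there is no bad pair -/
theorem bd_one (D q : ℕ) [NeZero D] (L : List ℕ) (v : ℕ → (ZMod D)ˣ) (z : (ZMod D)ˣ)
    (ψ : (ZMod D)ˣ → ℤ) (hψ : Cub D q L v z ψ) (ev : Prop)
    (hno : ev → Odd D → ∀ (b : Bool) (S S' : Finset ℕ) (ξ : (ZMod D)ˣ), S ⊆ L.toFinset →
      S' ⊆ L.toFinset → ξ ∈ Gam D q →
      (2 : ZMod D) * ((∏ p ∈ S, v p : (ZMod D)ˣ) : ZMod D) =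
        ((su b * ξ * ∏ p ∈ S', v p : (ZMod D)ˣ) : ZMod D) →
      sg b * (-1) ^ (S.card + S'.card) = 1) : Bd D ev ψ 1 := sorry

/-- trivial bound -/
theorem bd_two (D q : ℕ) [NeZero D] (L : List ℕ) (v : ℕ → (ZMod D)ˣ) (z : (ZMod D)ˣ)
    (ψ : (ZMod D)ˣ → ℤ) (hψ : Cub D q L v z ψ) (ev : Prop) : Bd D ev ψ 2 := sorry

/-! ### RS: residues and generators of `Gam D p` -/

theorem gam_cyclic (D p : ℕ) [NeZero D] (hp : p.Prime) (hpD : p ∣ D) :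
    ∃ g ∈ Gam D p, Gam D p ≤ Subgroup.closure {g} := sorry

theorem gam_closure (D p : ℕ) [NeZero D] (hp : p.Prime) (hpD : p ∣ D) (h2 : ¬ p * p ∣ D)
    (A : Set (ZMod p)ˣ) (hA : Subgroup.closure A = ⊤) :
    Gam D p ≤ Subgroup.closure {v | v ∈ Gam D p ∧ ZMod.unitsMap hpD v ∈ A} := sorry

theorem gam_one (D p r : ℕ) [NeZero D] (hr : r ∣ D) (h : r ∣ D / p) (v : (ZMod D)ˣ)
    (hv : v ∈ Gam D p) : ZMod.unitsMap hr v = 1 := sorry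

/-- `-1` in the product of the subgroups -/
theorem neg_one_not (D q : ℕ) [NeZero D] (L : List ℕ) (hL : (q :: L).toFinset = D.primeFactors)
    (h : (∃ r : ℕ, r.Prime ∧ 3 ≤ r ∧ r * r ∣ D) ∨ 8 ∣ D) :
    (-1 : (ZMod D)ˣ) ∉ Pl (Gam D) (q :: L) := sorry

/-! ### R1 - R18: no obstruction at one stage -/

theorem r1 (D q : ℕ) [NeZero D] (L : List ℕ) (ev : Prop) (f : (ZMod D)ˣ → ℤ)
    (h : RHyp D q L ev f) (h7 : 7 ≤ q) (h2 : q * q ∣ D) : MDv (Gam D) L f := sorry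

theorem r2 (D q : ℕ) [NeZero D] (L : List ℕ) (ev : Prop) (f : (ZMod D)ˣ → ℤ)
    (h : RHyp D q L ev f) (h11 : 11 ≤ q) (h4 : 4 ∣ D) (h2 : ¬ q * q ∣ D) (ha : D ≠ 4 * q)
    (hb : D ≠ 12 * q) : MDv (Gam D) L f := sorry

theorem r3 (D q : ℕ) [NeZero D] (L : List ℕ) (ev : Prop) (f : (ZMod D)ˣ → ℤ)
    (h : RHyp D q L ev f) (h5 : 5 ≤ q) (hD : D = 12 * q) : MDv (Gam D) L f := sorry

theorem r4 (D q : ℕ) [NeZero D] (L : List ℕ) (ev : Prop) (f : (ZMod D)ˣ → ℤ)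
    (h : RHyp D q L ev f) (hD : D = q) : MDv (Gam D) L f := sorry

theorem r5 (D q : ℕ) [NeZero D] (L : List ℕ) (ev : Prop) (f : (ZMod D)ˣ → ℤ)
    (h : RHyp D q L ev f) (h17 : 17 ≤ q) (hD : D = 4 * q) : MDv (Gam D) L f := sorry

theorem r6 (D q : ℕ) [NeZero D] (L : List ℕ) (ev : Prop) (f : (ZMod D)ˣ → ℤ)
    (h : RHyp D q L ev f) (h29 : 29 ≤ q) (hD : D = 3 * q) : MDv (Gam D) L f := sorry

theorem r7 (D q : ℕ) [NeZero D] (L : List ℕ) (ev : Prop) (f : (ZMod D)ˣ → ℤ)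
    (h : RHyp D q L ev f) (h17 : 17 ≤ q) (ho : Odd D) (h2 : ¬ q * q ∣ D) (ha : D ≠ q)
    (hb : D ≠ 3 * q) : MDv (Gam D) L f := sorry

theorem r8 (D q : ℕ) [NeZero D] (L : List ℕ) (ev : Prop) (f : (ZMod D)ˣ → ℤ)
    (h : RHyp D q L ev f) (h11 : 11 ≤ q) (ho : Odd D) (h2 : ¬ q * q ∣ D)
    (hr : (∃ r : ℕ, r.Prime ∧ 5 ≤ r ∧ r * r ∣ D) ∨ 27 ∣ D) : MDv (Gam D) L f := sorry

theorem r9 (D q : ℕ) [NeZero D] (L : List ℕ) (ev : Prop) (f : (ZMod D)ˣ → ℤ)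
    (h : RHyp D q L ev f) (h13 : 13 ≤ q) (ho : Odd D) (h2 : ¬ q * q ∣ D) (h11 : 11 ∣ D)
    (h121 : ¬ 11 * 11 ∣ D) : MDv (Gam D) L f := sorry

theorem r10 (D q : ℕ) [NeZero D] (L : List ℕ) (ev : Prop) (f : (ZMod D)ˣ → ℤ)
    (h : RHyp D q L ev f) (h11 : 11 ≤ q) (ho : Odd D) (h2 : ¬ q * q ∣ D) (h9 : 9 ∣ D)
    (h7 : 7 ∣ D) (h49 : ¬ 7 * 7 ∣ D) : MDv (Gam D) L f := sorry

theorem r11 (D q : ℕ) [NeZero D] (L : List ℕ) (ev : Prop) (f : (ZMod D)ˣ → ℤ)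
    (h : RHyp D q L ev f) (h11 : 11 ≤ q) (hD : D = 9 * q) : MDv (Gam D) L f := sorry

theorem r12 (D q : ℕ) [NeZero D] (L : List ℕ) (ev : Prop) (f : (ZMod D)ˣ → ℤ)
    (h : RHyp D q L ev f) (h11 : 11 ≤ q) (hD : D = 45 * q) : MDv (Gam D) L f := sorry

theorem r13 (D q : ℕ) [NeZero D] (L : List ℕ) (ev : Prop) (f : (ZMod D)ˣ → ℤ)
    (h : RHyp D q L ev f) (h11 : 11 ≤ q) (hD : D = 7 * q) : MDv (Gam D) L f := sorry

theorem r14 (D q : ℕ) [NeZero D] (L : List ℕ) (ev : Prop) (f : (ZMod D)ˣ → ℤ)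
    (h : RHyp D q L ev f) (h11 : 11 ≤ q) (hD : D = 21 * q) : MDv (Gam D) L f := sorry

theorem r15 (D q : ℕ) [NeZero D] (L : List ℕ) (ev : Prop) (f : (ZMod D)ˣ → ℤ)
    (h : RHyp D q L ev f) (h11 : 11 ≤ q) (hD : D = 35 * q) : MDv (Gam D) L f := sorry

theorem r16 (D q : ℕ) [NeZero D] (L : List ℕ) (ev : Prop) (f : (ZMod D)ˣ → ℤ)
    (h : RHyp D q L ev f) (h11 : 11 ≤ q) (hD : D = 15 * q) : MDv (Gam D) L f := sorry

theorem r17 (D q : ℕ) [NeZero D] (L : List ℕ) (ev : Prop) (f : (ZMod D)ˣ → ℤ)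
    (h : RHyp D q L ev f) (h11 : 11 ≤ q) (hD : D = 105 * q) : MDv (Gam D) L f := sorry

/-- the level is odd -/
theorem r18 (D q : ℕ) [NeZero D] (L : List ℕ) (ev : Prop) (hev : ¬ ev) (f : (ZMod D)ˣ → ℤ)
    (h : RHyp D q L ev f) (h11 : 11 ≤ q) (hD : D = 5 * q) : MDv (Gam D) L f := sorry

/-! ### RL: all cases together -/

theorem rl (D q : ℕ) [NeZero D] (L : List ℕ) (ev : Prop) (f : (ZMod D)ˣ → ℤ)
    (h : RHyp D q L ev f) (h11 : 11 ≤ q) (hpr : ∀ p ∈ D.primeFactors, p ≤ q)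
    (h3 : D = 3 * q → 29 ≤ q) (h4 : D = 4 * q → 17 ≤ q) (h5 : D = 5 * q → 17 ≤ q) :
    MDv (Gam D) L f := sorry

/-! ### S65, S69: the special cases -/

theorem s65 (m : ℕ) [NeZero m] (hD : 65 ∣ m) (c0 c : ZMod m → ℤ) (hT : TateF (anti c0))
    (hI : Inv (anti c0)) (hQ : QEq 13 c0 c)
    (hmax : ∀ x, anti c x ≠ 0 → 13 ∣ addOrderOf x → addOrderOf x ≤ 65) :
    MDv (Gam 65) [5] (fun z => anti c (emb 65 m (z : ZMod 65))) := sorry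

theorem s69 (m : ℕ) [NeZero m] (hD : 69 ∣ m) (c0 c : ZMod m → ℤ) (hT : TateF (anti c0))
    (hI : Inv (anti c0)) (hQ : QEq 23 c0 c)
    (hmax : ∀ x, anti c x ≠ 0 → 23 ∣ addOrderOf x → addOrderOf x ≤ 69) :
    MDv (Gam 69) [3] (fun z => anti c (emb 69 m (z : ZMod 69))) := sorry

/-! ### FX: one step with an exceptional class; TL: the last orders -/

open Pool.Agent.helper34.DH in
theorem fix_step (E : AddSubgroup Qt) (hE : hh ∈ E) (m : ℕ) [NeZero m] (D : ℕ) [NeZero D]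
    (hD : D ∣ m) (hF : FixE E D) (c : ZMod m → ℤ) (hT : TateF (anti c))
    (hmax : ∀ x, D ∣ addOrderOf x → addOrderOf x ≠ D → anti c x = 0) :
    ∃ c' : ZMod m → ℤ, TateF (anti c') ∧ (∀ x, addOrderOf x = D → anti c' x = 0) ∧
      (∀ x, ¬ addOrderOf x ∣ D → anti c' x = anti c x) ∧ cls m c - cls m c' ∈ E := sorry

open Pool.Agent.helper34.DH in
theorem ndec_step (E : AddSubgroup Qt) (hE : hh ∈ E) (m : ℕ) [NeZero m] (D : ℕ) [NeZero D]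
    (hD : D ∣ m) (c : ZMod m → ℤ) (hT : TateF (anti c))
    (hdec : NDec D (fun z => anti c (emb D m (z : ZMod D)))) :
    ∃ c' : ZMod m → ℤ, TateF (anti c') ∧ (∀ x, addOrderOf x = D → anti c' x = 0) ∧
      (∀ x, ¬ addOrderOf x ∣ D → anti c' x = anti c x) ∧ cls m c - cls m c' ∈ E := sorry

open Pool.Agent.helper34.DH in
theorem tail (E : AddSubgroup Qt) (hE : hh ∈ E) (m : ℕ) [NeZero m] (q : ℕ) (hq : q.Prime)
    (h7 : 7 ≤ q) (k : ℕ) (hk : k ≤ 5)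
    (hF : ∀ n, 3 ≤ n → n ≤ k → n * q ∣ m → ∀ _ : NeZero (n * q), FixE E (n * q))
    (c : ZMod m → ℤ) (hT : TateF (anti c))
    (hmax : ∀ x, anti c x ≠ 0 → q ∣ addOrderOf x → addOrderOf x ≤ k * q) :
    ∃ c' : ZMod m → ℤ, TateF (anti c') ∧ (∀ x, q ∣ addOrderOf x → anti c' x = 0) ∧
      (∀ x, ¬ q ∣ addOrderOf x → ¬ addOrderOf x ∣ 60 → anti c' x = anti c x) ∧
      cls m c - cls m c' ∈ E := sorry

/-! ### T1 - T4: orders divisible by 420 -/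

/-- all points have order `D`, a multiple of 420 but not of 49 -/
theorem t1 (m D : ℕ) [NeZero m] [NeZero D] (hD : D ∣ m) (h420 : 420 ∣ D)
    (hpr : ∀ p ∈ D.primeFactors, p ≤ 7) (c0 c : ZMod m → ℤ)
    (hsm : ∀ x, anti c0 x ≠ 0 → ∀ p : ℕ, p.Prime → p ∣ addOrderOf x → p ≤ 7)
    (hT : TateF (anti c0)) (hI : Inv (anti c0)) (hQ : QEq 7 c0 c)
    (hmax : ∀ x, D ∣ addOrderOf x → addOrderOf x ≠ D → anti c x = 0) :
    MDv (Gam D) [2, 3, 5] (fun z => anti c (emb D m (z : ZMod D))) ∨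
      (¬ 49 ∣ D ∧ (∀ x, anti c0 x ≠ 0 → addOrderOf x = D) ∧ ∑ x, |anti c0 x| ≤ 12) := sorry

theorem t2 (m : ℕ) [NeZero m] (hD : 420 ∣ m) (c0 : ZMod m → ℤ) (hT : TateF (anti c0))
    (hs : ∀ x, anti c0 x ≠ 0 → addOrderOf x = 420) :
    MDv (Gam 420) [2, 3, 5] (fun z => anti c0 (emb 420 m (z : ZMod 420))) := sorry

theorem t3 (D : ℕ) [NeZero D] (h420 : 420 ∣ D) (hne : D ≠ 420) (h49 : ¬ 49 ∣ D) (h7 : 7 ∣ D)
    (hpr : ∀ p ∈ D.primeFactors, p ≤ 7) (f : (ZMod D)ˣ → ℤ) (hodd : ∀ x, f (-x) = - f x)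
    (hf : MDv (Gam D) [7, 2, 3, 5] f) (h12 : ∑ x, |f x| ≤ 12) :
    ∃ (N : (ZMod D)ˣ → ℤ) (a : (ZMod 7)ˣ), (∀ u ∈ Gam D 7, ∀ x, N (u * x) = N x) ∧
      (∀ x, N (-x) = - N x) ∧ MDv (Gam D) [2, 3, 5] (fun z => f z - N z) ∧
      (∑ z : (ZMod D)ˣ, if ZMod.unitsMap h7 z = a then |f z - N z| else 0) ≤ 2 := sorry

theorem t4 (m D D' : ℕ) [NeZero m] [NeZero D] [NeZero D'] (hD : D ∣ m) (hD' : D' ∣ m)
    (h420 : 420 ∣ D) (h420' : 420 ∣ D') (hne : D' < D) (h49 : ¬ 49 ∣ D) (h7 : 7 ∣ D)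
    (hpr : ∀ p ∈ D.primeFactors, p ≤ 7) (hpr' : ∀ p ∈ D'.primeFactors, p ≤ 7)
    (c1 c : ZMod m → ℤ)
    (hT : TateF (anti c)) (hs : ∀ x, 7 ∣ addOrderOf x → anti c1 x ≠ 0 → addOrderOf x = D)
    (a : (ZMod 7)ˣ)
    (h2 : (∑ z : (ZMod D)ˣ, if ZMod.unitsMap h7 z = a then |anti c1 (emb D m (z : ZMod D))|
      else 0) ≤ 2)
    (hQ : QEq 7 c1 c) (hmax : ∀ x, D' ∣ addOrderOf x → addOrderOf x ≠ D' → anti c x = 0) :
    MDv (Gam D') [2, 3, 5] (fun z => anti c (emb D' m (z : ZMod D'))) := sorry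

/-! ### SM: smooth orders without multiples of 420 -/

open Pool.Agent.helper34.DH in
theorem smooth (E : AddSubgroup Qt) (hE : hh ∈ E)
    (hF : ∀ D : ℕ, ∀ _ : NeZero D, D ∈ ({12, 15, 20, 21, 28, 35} : Finset ℕ) → FixE E D)
    (m : ℕ) [NeZero m] (c : ZMod m → ℤ) (hT : TateF (anti c))
    (hsm : ∀ x, anti c x ≠ 0 → (∀ p : ℕ, p.Prime → p ∣ addOrderOf x → p ≤ 7) ∧
      ¬ 420 ∣ addOrderOf x) : cls m c ∈ E := sorry

end Pool.Agent.helper88.EF
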